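import Pool.Agent.H605.Mont.Fixed
import Pool.Agent.H605.Mont.Quant2
import Pool.Agent.H605.Fix.Short
import Pool.Agent.H605.Fix.Multiples
import Pool.Agent.H605.Fix.RealSets2
import Pool.Agent.H605.Fix.Proj2

/-!
# Large values of Dirichlet polynomials on `[0, K N]` and the arithmetic Kakeya conjecture

On `[0, K N]`, `K` fixed, the mean square of a Dirichlet polynomial of length `N` with coefficients
`|b_n| ≤ 1` is `O(K N^2)`. If for every `η > 0` there is `K` such that the values above `N^(1/2+η)`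
cannot carry the proportion `1 / 10000` of `K N^2`, then the arithmetic Kakeya conjecture holds.
Here `K` must depend on `η`: the values above `N^(1/2+η)`, `η = c / log log K`, can carry more.
-/

set_option autoImplicit false

open Finset Filter

namespace Pool.Agent.Results.MP_ecd12e_nt.BoundedRange

/-- `D(t) = ∑_{n=N}^{2N} b_n n^{it}` -/
noncomputable def D (N : ℕ) (b : ℕ → ℂ) (t : ℝ) : ℂ :=
  ∑ n ∈ Icc N (2 * N), b n * Complex.exp (Complex.I * (t : ℂ) * (Real.log (n : ℝ) : ℂ))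

/-- For large `N`, uniformly in the coefficients `|b_n| ≤ 1`, the values of modulus above `N^σ` at
the integers of `[0, K N]` contribute at most `K N^2 / 10000` to the mean square. -/
def SmallShare (K σ : ℝ) : Prop :=
  ∃ N₀ : ℕ, ∀ N : ℕ, N₀ ≤ N → ∀ b : ℕ → ℂ, (∀ n ∈ Icc N (2 * N), ‖b n‖ ≤ 1) →
    ∀ W : Finset ℤ, (∀ t ∈ W, 0 ≤ (t : ℝ) ∧ (t : ℝ) ≤ K * N ∧ (N : ℝ) ^ σ < ‖D N b t‖) →
      ∑ t ∈ W, ‖D N b t‖ ^ 2 ≤ K * (N : ℝ) ^ 2 / 10000

/-- `E` contains, for the difference `d`, a progression `a, a + d, …, a + j d`, `j ≤ k`. -/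
def HasAP (E : Finset ℤ) (k : ℝ) (d : ℕ) : Prop :=
  ∃ a : ℤ, ∀ j : ℕ, (j : ℝ) ≤ k → a + j * d ∈ E

/-- Q1 of MP_4b405e_nt, the arithmetic Kakeya conjecture: the body of the frozen statement
`S16849`. -/
def ArithmeticKakeya : Prop :=
  ∀ n : ℕ, ∀ ε : ℝ, 0 < ε → ∃ k : ℕ,
    ∀ B : Set (EuclideanSpace ℝ (Fin n)),
      (∀ d : EuclideanSpace ℝ (Fin n), (∀ i, d i ∈ Set.Icc (0:ℝ) 1) →
        ∃ a : EuclideanSpace ℝ (Fin n), ∀ j : ℕ, j < k → a + (j : ℝ) • d ∈ B) →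
      ∀ δ₀ : ℝ, 0 < δ₀ → ∃ δ : ℝ, 0 < δ ∧ δ < δ₀ ∧
        ∀ S : Finset (EuclideanSpace ℝ (Fin n)),
          B ⊆ (⋃ x ∈ S, Metric.ball x δ) →
          δ ^ (-((n : ℝ) - ε)) ≤ (S.card : ℝ)

/-- Q1 of MP_169869_co, the projection form: the body of the frozen statement `S07345`. -/
def ProjectionForm : Prop :=
  ∀ ε : ℝ, 0 < ε →
    ∃ S : Finset ℚ, (-1 : ℚ) ∉ S ∧
      ∀ A : Finset (ℤ × ℤ),
        ((A.image (fun p : ℤ × ℤ => (p.1 : ℚ) + (-1) * (p.2 : ℚ))).card : ℝ) ≤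
          (max ((A.image (fun p : ℤ × ℤ => (p.2 : ℚ))).card : ℝ)
              ((S.sup (fun r : ℚ =>
                  (A.image (fun p : ℤ × ℤ => (p.1 : ℚ) + r * (p.2 : ℚ))).card) : ℕ) : ℝ))
            ^ (1 + ε)

/-- (1) If for every `σ > 1/2` there is `K ≥ 16` with `SmallShare K σ`, then the arithmetic Kakeya
conjecture holds in both forms.
(2) For `K ≥ 16` and `1/2 ≤ σ ≤ 3/4`, `SmallShare K σ` implies that, for large `N`, a finite set
of integers with a progression `a, a + d, …, a + j d`, `j ≤ K / 4`, for every `d ≤ N` has at least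
`N^(3-4σ) / 2048` elements.
(3) There is `c > 0` such that `SmallShare K σ` fails for all `K ≥ 16`, `σ ≤ 1/2 + c / log log K`. -/
theorem result :
    ((∀ σ : ℝ, 1 / 2 < σ → ∃ K : ℝ, 16 ≤ K ∧ SmallShare K σ) →
      ArithmeticKakeya ∧ ProjectionForm) ∧
    (∀ K σ : ℝ, 16 ≤ K → 1 / 2 ≤ σ → σ ≤ 3 / 4 → SmallShare K σ →
      ∃ N₀ : ℕ, ∀ N : ℕ, N₀ ≤ N → ∀ E : Finset ℤ,
        (∀ d : ℕ, 1 ≤ d → d ≤ N → HasAP E (K / 4) d) →
          (N : ℝ) ^ (3 - 4 * σ) / 2048 ≤ (E.card : ℝ)) ∧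
    (∃ c : ℝ, 0 < c ∧ ∀ K σ : ℝ, 16 ≤ K → σ ≤ 1 / 2 + c / Real.log (Real.log K) →
      ¬ SmallShare K σ) := by
  refine ⟨?_, ?_, ?_⟩
  · intro h
    have hf : Pool.Agent.H605.Fix.FixedFull := Pool.Agent.H605.Mont.fixedFull_of_share h
    have hs : Pool.Agent.H605.Fix.FixedSets := Pool.Agent.H605.Fix.sets_of_full hf
    exact ⟨Pool.Agent.H605.Fix.real_of_sets hs,
      Pool.Agent.H605.Fix.proj_of_allSets (Pool.Agent.H605.Fix.allSets_of_sets hs)⟩
  · intro K σ hK hσ1 hσ2 h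
    exact Pool.Agent.H605.Mont.fixed_of_share hK hσ1 hσ2 h
  · refine ⟨1 / 100000, by norm_num, fun K σ hK hσ => ?_⟩
    rintro ⟨N₁, h1⟩
    have hev : ∀ᶠ N : ℕ in atTop,
        100000 * (Real.log K * Real.log (Real.log K)) ≤ Real.log N :=
      (Real.tendsto_log_atTop.comp tendsto_natCast_atTop_atTop).eventually_ge_atTop _
    obtain ⟨N, hN, hN1, hN2⟩ := (hev.and ((eventually_ge_atTop N₁).and
      (eventually_ge_atTop 1))).exists
    obtain ⟨b, W, hb, hW, hs⟩ := Pool.Agent.H605.Mont.concentration_quant hK hN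
    have hNr : (1 : ℝ) ≤ N := by exact_mod_cast hN2
    have h2 := h1 N hN1 b (fun n _ => hb n) W (fun t ht => by
      refine ⟨(hW t ht).1, (hW t ht).2.1, lt_of_le_of_lt ?_ (hW t ht).2.2⟩
      apply Real.rpow_le_rpow_of_exponent_le hNr
      rw [div_div] at hσ
      exact hσ)
    have h3 : 0 < K * (N : ℝ) ^ 2 := by
      apply mul_pos (by linarith)
      positivity
    have h4 : K * (N : ℝ) ^ 2 / 8192 ≤ K * (N : ℝ) ^ 2 / 10000 := hs.trans h2
    linarith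

end Pool.Agent.Results.MP_ecd12e_nt.BoundedRange
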