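import Pool.Agent.H605.Mont.Quant3

/-!
# The constant in Montgomery's large value conjecture

Just above `T = N` the mean value theorem is sharp for large values: for `16 ≤ K`,
`K^(log log K) ≤ N^c`, a positive proportion of the mean square on `[0, K N]` can be carried by
values above `N^(1/2 + c / log log K)`. It follows that the constant `C(σ, A, ε)` of the conjecture
is at least doubly exponential in `1 / (σ - 1/2)` if `ε ≤ (σ - 1/2) / 4`.
-/

set_option autoImplicit false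

open Finset

namespace Pool.Agent.Results.MP_ecd12e_nt.ConstantGrowth

/-- `D(t) = ∑_{n=N}^{2N} b_n n^{it}` -/
noncomputable def D (N : ℕ) (b : ℕ → ℂ) (t : ℝ) : ℂ :=
  ∑ n ∈ Icc N (2 * N), b n * Complex.exp (Complex.I * (t : ℂ) * (Real.log (n : ℝ) : ℂ))

/-- The bound of Q1 for given `A`, `σ`, `ε` with the constant `C`: for all `N ≤ T ≤ N^A`, all
`|b_n| ≤ 1` and all sets `W` of integers of `[0, T]` with `|D| > N^σ` on `W`,
`|W| ≤ C N^(2 - 2σ + ε)`. -/
def LargeValueBound (A σ ε C : ℝ) : Prop :=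
  ∀ (N : ℕ) (T : ℝ) (b : ℕ → ℂ) (W : Finset ℤ), 1 ≤ N → (N : ℝ) ≤ T → T ≤ (N : ℝ) ^ A →
    (∀ n ∈ Icc N (2 * N), ‖b n‖ ≤ 1) →
    (∀ t ∈ W, 0 ≤ (t : ℝ) ∧ (t : ℝ) ≤ T ∧ (N : ℝ) ^ σ < ‖D N b t‖) →
    (W.card : ℝ) ≤ C * (N : ℝ) ^ (2 - 2 * σ + ε)

/-- There is an absolute constant `c > 0` with the following properties.
(1) If `σ ≤ 1/2 + c`, `A ≥ 1 + (σ - 1/2)`, `ε ≤ (σ - 1/2) / 4`, `σ > 1/2`, then every constant `C`
in the bound of Q1 is at least `exp (exp (c / (σ - 1/2)))`.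
(2) If `16 ≤ K`, `K^(log log K) ≤ N^c` and `1/2 ≤ σ ≤ 1/2 + c / log log K`, then for some `|b_n| ≤ 1`
there are at least `c K N^(2-2σ) / (1 + log N)^2` integers of `[0, K N]` with `|D(t)| > N^σ`.
(3) If `16 ≤ K` and `K^(log log K) ≤ N^c`, then for some `|b_n| ≤ 1` the values above
`N^(1/2 + c / log log K)` at the integers of `[0, K N]` have mean square at least `c K N^2`. -/
theorem result : ∃ c : ℝ, 0 < c ∧
    (∀ A σ ε C : ℝ, 1 / 2 < σ → σ ≤ 1 / 2 + c → 1 + (σ - 1 / 2) ≤ A → ε ≤ (σ - 1 / 2) / 4 →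
      LargeValueBound A σ ε C → Real.exp (Real.exp (c / (σ - 1 / 2))) ≤ C) ∧
    (∀ (K σ : ℝ) (N : ℕ), 16 ≤ K →
      Real.log K * Real.log (Real.log K) ≤ c * Real.log N →
      1 / 2 ≤ σ → σ ≤ 1 / 2 + c / Real.log (Real.log K) →
      ∃ (b : ℕ → ℂ) (W : Finset ℤ), (∀ n ∈ Icc N (2 * N), ‖b n‖ ≤ 1) ∧
        (∀ t ∈ W, 0 ≤ (t : ℝ) ∧ (t : ℝ) ≤ K * N ∧ (N : ℝ) ^ σ < ‖D N b t‖) ∧
        c * (K * (N : ℝ) ^ (2 - 2 * σ)) / (1 + Real.log N) ^ 2 ≤ (W.card : ℝ)) ∧
    (∀ (K : ℝ) (N : ℕ), 16 ≤ K →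
      Real.log K * Real.log (Real.log K) ≤ c * Real.log N →
      ∃ (b : ℕ → ℂ) (W : Finset ℤ), (∀ n, ‖b n‖ ≤ 1) ∧
        (∀ t ∈ W, 0 ≤ (t : ℝ) ∧ (t : ℝ) ≤ K * N ∧
          (N : ℝ) ^ (1 / 2 + c / Real.log (Real.log K)) < ‖D N b t‖) ∧
        c * (K * (N : ℝ) ^ 2) ≤ ∑ t ∈ W, ‖D N b t‖ ^ 2) := by
  obtain ⟨c, hc⟩ : ∃ c : ℝ, c = 1 / 1000000000 := ⟨_, rfl⟩
  have hc0 : 0 < c := by rw [hc]; norm_num
  -- the condition on `N`
  have hcond : ∀ (K : ℝ) (N : ℕ), 16 ≤ K →
      Real.log K * Real.log (Real.log K) ≤ c * Real.log N →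
      100000 * (Real.log K * Real.log (Real.log K)) ≤ Real.log N ∧ (1 : ℝ) ≤ N ∧
        1 ≤ Real.log (Real.log K) := by
    intro K N hK h
    obtain ⟨h1, h2⟩ := Pool.Agent.H605.Mont.logK_bounds hK
    have h3 : 0 < Real.log K * Real.log (Real.log K) := by
      apply mul_pos <;> linarith
    rw [hc] at h
    have h4 : 0 < Real.log N := by linarith
    refine ⟨by linarith, ?_, h2⟩
    by_contra hcon
    rw [not_le] at hcon
    have h5 : N = 0 := by
      have : N < 1 := by exact_mod_cast hcon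
      omega
    rw [h5, Nat.cast_zero, Real.log_zero] at h4
    exact lt_irrefl _ h4
  refine ⟨c, hc0, ?_, ?_, ?_⟩
  · intro A σ ε C hσ hσc hA hε h
    obtain ⟨η, hη⟩ : ∃ η, η = σ - 1 / 2 := ⟨_, rfl⟩
    have hση : σ = 1 / 2 + η := by rw [hη]; ring
    rw [← hη] at hA hε ⊢
    rw [hση] at h
    have hη0 : 0 < η := by rw [hη]; linarith
    have hηc : η ≤ c := by rw [hη]; linarith
    -- `C` is nonnegative
    have hC0 : 0 ≤ C := by
      have := h 1 1 (fun _ => 0) ∅ le_rfl (by norm_num) (by norm_num)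
        (fun n _ => by rw [norm_zero]; norm_num) (fun t ht => absurd ht (Finset.notMem_empty t))
      rw [Finset.card_empty, Nat.cast_zero, Nat.cast_one, Real.one_rpow, mul_one] at this
      exact this
    have h1 := Pool.Agent.H605.Mont.constant_lower (η := η) (C := C) hη0
      (by rw [hc] at hηc; linarith) (by
        intro N T b W hN hNT hT hb hW
        have hN1 : (1 : ℝ) ≤ N := by exact_mod_cast hN
        refine (h N T b W hN hNT
          (hT.trans (Real.rpow_le_rpow_of_exponent_le hN1 hA)) hb hW).trans ?_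
        apply mul_le_mul_of_nonneg_left _ hC0
        exact Real.rpow_le_rpow_of_exponent_le hN1 (by linarith))
    refine le_trans (Real.exp_le_exp.2 (Real.exp_le_exp.2 ?_)) h1
    rw [hc, div_div]
    apply one_div_le_one_div_of_le (by positivity)
    nlinarith
  · intro K σ N hK hN hσ hσ1
    obtain ⟨h1, h2, h3⟩ := hcond K N hK hN
    obtain ⟨b, W, hb, hW, hcard⟩ := Pool.Agent.H605.Mont.many_large hK h1 hσ (by
      refine hσ1.trans ?_
      have h4 : c / Real.log (Real.log K) ≤ 1 / (200000 * Real.log (Real.log K)) := by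
        rw [hc, div_div]
        apply one_div_le_one_div_of_le (by positivity)
        nlinarith
      linarith)
    refine ⟨b, W, hb, hW, ?_⟩
    have hl : 0 < 1 + Real.log N := by
      have := Real.log_nonneg h2
      linarith
    have hK0 : 0 < K := by linarith
    have hN0 : (0 : ℝ) < N := by linarith
    rw [div_le_iff₀ (by positivity)]
    have h5 : 0 ≤ K * (N : ℝ) ^ (2 - 2 * σ) := by positivity
    have h6 : 0 ≤ (1 + Real.log N) ^ 2 * (W.card : ℝ) := by positivity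
    rw [hc]
    nlinarith
  · intro K N hK hN
    obtain ⟨h1, h2, h3⟩ := hcond K N hK hN
    obtain ⟨b, W, hb, hW, hsum⟩ := Pool.Agent.H605.Mont.concentration_quant hK h1
    refine ⟨b, W, hb, fun t ht => ⟨(hW t ht).1, (hW t ht).2.1, ?_⟩, ?_⟩
    · refine lt_of_le_of_lt ?_ (hW t ht).2.2
      apply Real.rpow_le_rpow_of_exponent_le h2
      have h4 : c / Real.log (Real.log K) ≤ 1 / (100000 * Real.log (Real.log K)) := by
        rw [hc, div_div]
        apply one_div_le_one_div_of_le (by positivity)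
        nlinarith
      linarith
    · refine le_trans ?_ hsum
      have hK0 : 0 < K := by linarith
      have h5 : 0 ≤ K * (N : ℝ) ^ 2 := by positivity
      rw [hc]
      linarith

end Pool.Agent.Results.MP_ecd12e_nt.ConstantGrowth
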