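import Pool.Agent.H605.Mont.Main
import Pool.Agent.H605.Web.Euclid
import Pool.Agent.H605.Web.Impl4
import Pool.Agent.H605.Web.Error

/-!
# Large values of Dirichlet polynomials in short ranges and Kakeya sets

By the mean value theorem `∑_{t ≤ T} |D(t)|^2 ≤ C T N` up to a logarithm for `T ≥ N`. We show that
the values above `N^σ` can carry a positive proportion of this for `T = N^(1+δ)`, `δ` arbitrarily
small, unless the Kakeya type problems have the exponent `3 - 4σ`. At `σ = 1/2` this is the full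
Kakeya conjecture for the Minkowski dimension in all dimensions, its discrete form, the question
of Erdos on distinct multiples and the covering problem MP_bb5cc8_nt.
-/

set_option autoImplicit false

open Finset MeasureTheory Filter Topology N047c7463 Asymptotics

namespace Pool.Agent.Results.MP_ecd12e_nt.KakeyaFromLargeValues

/-- `D(t) = ∑_{n=N}^{2N} b_n n^{it}` -/
noncomputable def D (N : ℕ) (b : ℕ → ℂ) (t : ℝ) : ℂ :=
  ∑ n ∈ Icc N (2 * N), b n * Complex.exp (Complex.I * (t : ℂ) * (Real.log (n : ℝ) : ℂ))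

/-- For all `N ≤ T ≤ N^A`, `|b_n| ≤ 1` and all sets `W` of integers of `[0, T]` with `|D| > N^σ`
on `W`: `|W| ≤ C N^ρ`. Q1 says that this holds for `ρ = 2 - 2σ + ε` if `σ > 1/2`, `ε > 0`. -/
def LargeValues (A σ ρ : ℝ) : Prop :=
  ∃ C : ℝ, ∀ (N : ℕ) (T : ℝ) (b : ℕ → ℂ) (W : Finset ℤ), 1 ≤ N → (N : ℝ) ≤ T → T ≤ (N : ℝ) ^ A →
    (∀ n ∈ Icc N (2 * N), ‖b n‖ ≤ 1) →
    (∀ t ∈ W, 0 ≤ (t : ℝ) ∧ (t : ℝ) ≤ T ∧ (N : ℝ) ^ σ < ‖D N b t‖) →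
    (W.card : ℝ) ≤ C * (N : ℝ) ^ ρ

/-- The moment of order `2 + 2δ` over the integers of `[0, N^(1+δ)]` is `O(N^(2 + 2δ + e))`. -/
def MomentBound (δ e : ℝ) : Prop :=
  ∃ C : ℝ, ∀ N : ℕ, 1 ≤ N → ∀ b : ℕ → ℂ, (∀ n ∈ Icc N (2 * N), ‖b n‖ ≤ 1) →
    ∀ W : Finset ℤ, (∀ t ∈ W, 0 ≤ (t : ℝ) ∧ (t : ℝ) ≤ (N : ℝ) ^ (1 + δ)) →
      ∑ t ∈ W, ‖D N b t‖ ^ (2 + 2 * δ) ≤ C * (N : ℝ) ^ (2 + 2 * δ + e)

/-- The values of modulus above `N^σ` at the integers of `[0, N^(1+δ)]` contribute `o(N^(2+δ))` to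
the mean square, uniformly in the coefficients `|b_n| ≤ 1`. -/
def SmallShare (σ δ : ℝ) : Prop :=
  ∀ c : ℝ, 0 < c → ∃ N₀ : ℕ, ∀ N : ℕ, N₀ ≤ N → ∀ b : ℕ → ℂ,
    (∀ n ∈ Icc N (2 * N), ‖b n‖ ≤ 1) → ∀ W : Finset ℤ,
    (∀ t ∈ W, 0 ≤ (t : ℝ) ∧ (t : ℝ) ≤ (N : ℝ) ^ (1 + δ) ∧ (N : ℝ) ^ σ < ‖D N b t‖) →
      ∑ t ∈ W, ‖D N b t‖ ^ 2 ≤ c * (N : ℝ) ^ (2 + δ)

/-- `SmallShare` just above `σ`, for arbitrarily small `δ > 0` -/
def SmallShareNear (σ : ℝ) : Prop :=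
  ∀ η : ℝ, 0 < η → ∃ δ : ℝ, 0 < δ ∧ δ < η ∧ SmallShare (σ + η) δ

/-- The number of pairs `(d, x)`, `X ≤ d < 2X`, `x ∈ E`, `x ≡ a_d mod d`. -/
def incidences (X : ℕ) (a : (d : ℕ) → ZMod d) (E : Finset ℕ) : ℕ :=
  ∑ d ∈ Ico X (2 * X), (E.filter (fun x : ℕ => (x : ZMod d) = a d)).card

/-- `⌊X^(1+κ) / 16⌋`, `κ = 2δ/(1+δ)` -/
noncomputable def win (δ : ℝ) (X : ℕ) : ℕ := ⌊(X : ℝ) ^ (1 + 2 * δ / (1 + δ)) / 16⌋₊

/-- `E` contains, for the difference `d`, a progression `a, a + d, …, a + j d`, `j ≤ K`. -/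
def HasAP (E : Finset ℤ) (K : ℝ) (d : ℕ) : Prop :=
  ∃ a : ℤ, ∀ j : ℕ, (j : ℝ) ≤ K → a + j * d ∈ E

/-- A set with progressions of length `N^ε` for all differences of a set `S` of integers of
`[1, N]` has at least `|S| N^(-s-ε)` elements, for large `N`. -/
def DiscreteKakeya (s : ℝ) : Prop :=
  ∀ ε : ℝ, 0 < ε → ∃ N₀ : ℕ, ∀ N : ℕ, N₀ ≤ N → ∀ S : Finset ℕ, (∀ d ∈ S, 1 ≤ d ∧ d ≤ N) →
    ∀ E : Finset ℤ, (∀ d ∈ S, HasAP E ((N : ℝ) ^ ε) d) →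
      (S.card : ℝ) ≤ (N : ℝ) ^ (s + ε) * (E.card : ℝ)

/-- `K ⊆ ℝ^n` contains a unit segment in every direction. -/
def HasSegments {n : ℕ} (K : Set (EuclideanSpace ℝ (Fin n))) : Prop :=
  ∀ e : EuclideanSpace ℝ (Fin n), ‖e‖ = 1 → ∃ a : EuclideanSpace ℝ (Fin n),
    ∀ t ∈ Set.Icc (0 : ℝ) 1, a + t • e ∈ K

/-- The lower Minkowski dimension `n - limsup_{r → 0+} log |N_r K| / log r`. -/
noncomputable def lowerMinkowski {n : ℕ} (K : Set (EuclideanSpace ℝ (Fin n))) : ℝ :=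
  n - limsup (fun r : ℝ => Real.log (volume (Metric.thickening r K)).toReal / Real.log r) (𝓝[>] 0)

/-- `p` is a prime with `N^α ≤ p < 2 N^α`. -/
def InRange (α : ℝ) (N p : ℕ) : Prop :=
  p.Prime ∧ (N : ℝ) ^ α ≤ (p : ℝ) ∧ (p : ℝ) < 2 * (N : ℝ) ^ α

/-- The number of integers `1 ≤ n ≤ N` in the class `a p` modulo `p` for at least one prime `p`
with `N^α ≤ p < 2 N^α`. -/
noncomputable def covered (α : ℝ) (N : ℕ) (a : (p : ℕ) → ZMod p) : ℕ :=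
  Set.ncard {n : ℕ | 1 ≤ n ∧ n ≤ N ∧ ∃ p : ℕ, InRange α N p ∧ (n : ZMod p) = a p}

/-- Q1 of MP_bb5cc8_nt: `N^(1 - o(1))` integers are covered, for every `1/2 < α < 1`. -/
def CoveringConjecture : Prop :=
  ∀ α : ℝ, 1 / 2 < α → α < 1 → ∀ ε : ℝ, 0 < ε → ∃ N₀ : ℕ, ∀ N : ℕ, N₀ ≤ N →
    ∀ a : (p : ℕ) → ZMod p, (N : ℝ) ^ (1 - ε) ≤ (covered α N a : ℝ)

/-- Q1 of MP_98a628_nt (Erdos), as in its frozen statement. -/
def ErdosMultiples : Prop :=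
  ∃ error : ℕ → ℝ, error =o[atTop] (fun _ ↦ (1 : ℝ)) ∧ ∀ᶠ n in atTop, ∀ m, ∃ L,
    HasDivisibleDistinctTuple n m L ∧ (L : ℝ) ≤ Real.rpow n (1 + error n)

/-- (1) Incidences of residue classes `a_d mod d`, `X ≤ d < 2X`, with a set `E ⊆ [1, N]` give a
Dirichlet polynomial of length `h X` with large values: the values with
`|D|^2 ≥ I h^2 / (8 |E|)` at the integers of `[0, 8 h N]` have mean square at least `I X h^2 / 32`.
(2) Power savings over the mean value theorem, or over the trivial moment, give `SmallShare`.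
(3) `SmallShare σ δ` bounds from below every set `E ⊆ [1, N]`, `N = win δ X`, with `λ N`
incidences: `|E| ≥ c X^(1 - (2-κ)(2σ-1))`, `κ = 2δ/(1+δ)`.
(4) If, for `1/2 ≤ σ < 3/4`, `SmallShare` holds just above `σ` for arbitrarily small `δ`, then the
discrete Kakeya statement holds with the exponent `3 - 4σ` and every set in `ℝ^n`, `n ≥ 2`, with a
unit segment in each direction has lower Minkowski dimension at least `1 + (n-1)(3-4σ)`.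
(5) For `σ = 1/2` it implies Q1 of MP_bb5cc8_nt and Q1 of MP_98a628_nt.
(6) Q1 for exponents `A` arbitrarily close to `1` is enough for the hypothesis of (5). -/
theorem result :
    (∀ (X N h : ℕ) (a : (d : ℕ) → ZMod d) (E : Finset ℕ), 2 ≤ X → X ≤ N → 1 ≤ h →
      8 * h * N ≤ X ^ 2 → E ⊆ Icc 1 N →
      ∃ (b : ℕ → ℂ) (G : Finset ℤ), (∀ n, ‖b n‖ ≤ 1) ∧
        (∀ t ∈ G, 0 ≤ (t : ℝ) ∧ (t : ℝ) ≤ 8 * h * N ∧
          (incidences X a E : ℝ) * (h : ℝ) ^ 2 ≤ 8 * (E.card : ℝ) * ‖D (h * X) b t‖ ^ 2) ∧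
        (incidences X a E : ℝ) * X * (h : ℝ) ^ 2 ≤ 32 * ∑ t ∈ G, ‖D (h * X) b t‖ ^ 2) ∧
    (∀ σ δ : ℝ, 1 / 2 ≤ σ → 0 < δ →
      ((∃ ρ : ℝ, ρ < 2 + δ - 2 * σ ∧ LargeValues (1 + δ) σ ρ) → SmallShare σ δ) ∧
      ((∃ e : ℝ, e < δ * (2 * σ - 1) ∧ MomentBound δ e) → SmallShare σ δ)) ∧
    (∀ σ δ lam : ℝ, 1 / 2 ≤ σ → 0 < δ → δ < 1 → 0 < lam → SmallShare σ δ →
      ∃ X₀ : ℕ, ∀ X : ℕ, X₀ ≤ X → ∀ a : (d : ℕ) → ZMod d, ∀ E : Finset ℕ,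
        E ⊆ Icc 1 (win δ X) → lam * (win δ X : ℝ) ≤ (incidences X a E : ℝ) →
        lam / (128 * 4 ^ (2 * σ - 1)) * (X : ℝ) ^ (1 - (2 - 2 * δ / (1 + δ)) * (2 * σ - 1))
          ≤ (E.card : ℝ)) ∧
    (∀ σ : ℝ, 1 / 2 ≤ σ → σ < 3 / 4 → SmallShareNear σ →
      DiscreteKakeya (4 * σ - 2) ∧
      ∀ n : ℕ, 2 ≤ n →
        (∀ ε : ℝ, 0 < ε → ∃ c : ℝ, 0 < c ∧ ∀ K : Set (EuclideanSpace ℝ (Fin n)),
          HasSegments K → ∀ r : ℝ, 0 < r → r ≤ 1 →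
            ENNReal.ofReal (c * r ^ (((n : ℝ) - 1) * (4 * σ - 2) + ε)) ≤
              volume (Metric.thickening r K)) ∧
        (∀ K : Set (EuclideanSpace ℝ (Fin n)), IsCompact K → HasSegments K →
          1 + ((n : ℝ) - 1) * (3 - 4 * σ) ≤ lowerMinkowski K)) ∧
    (SmallShareNear (1 / 2) → CoveringConjecture ∧ ErdosMultiples) ∧
    ((∀ η : ℝ, 0 < η → ∃ δ : ℝ, 0 < δ ∧ δ < η ∧
        ∀ σ ε : ℝ, 1 / 2 < σ → 0 < ε → LargeValues (1 + δ) σ (2 - 2 * σ + ε)) →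
      SmallShareNear (1 / 2)) := by
  have part2 : ∀ σ δ ρ : ℝ, 1 / 2 ≤ σ → 0 < δ → ρ < 2 + δ - 2 * σ → LargeValues (1 + δ) σ ρ →
      SmallShare σ δ := fun σ δ ρ hσ hδ hρ h =>
    Pool.Agent.H605.Mont.unsat_of_saving hσ hδ hρ h
  have hfull : ∀ σ : ℝ, 1 / 2 ≤ σ → SmallShareNear σ → Pool.Agent.H605.Web.DKfull (3 - 4 * σ) :=
    fun σ hσ h => Pool.Agent.H605.Mont.kakeya_of_unsat hσ h
  refine ⟨?_, ?_, ?_, ?_, ?_, ?_⟩
  · intro X N h a E hX hXN hh h8 hE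
    obtain ⟨b, G, hb, hG, hs⟩ := Pool.Agent.H605.Mont.incidences (P := Ico X (2 * X)) (a := a)
      (N := N) (X := X) (h := h) E hE (fun p hp => mem_Ico.1 hp) hX hXN hh h8
    exact ⟨b, G, hb, hG, hs⟩
  · intro σ δ hσ hδ
    refine ⟨?_, ?_⟩
    · rintro ⟨ρ, hρ, h⟩
      exact part2 σ δ ρ hσ hδ hρ h
    · rintro ⟨e, he, h⟩
      exact Pool.Agent.H605.Mont.unsat_of_moment hδ he h
  · intro σ δ lam hσ hδ hδ1 hlam h
    exact Pool.Agent.H605.Mont.rich hσ hδ hδ1 hlam h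
  · intro σ hσ hσ1 h
    have hDK := Pool.Agent.H605.Web.DKsets_of_DKfull (hfull σ hσ h)
    have vol : ∀ n : ℕ, 2 ≤ n → ∀ ε : ℝ, 0 < ε → ∃ c : ℝ, 0 < c ∧
        ∀ K : Set (EuclideanSpace ℝ (Fin n)), HasSegments K → ∀ r : ℝ, 0 < r → r ≤ 1 →
          ENNReal.ofReal (c * r ^ (((n : ℝ) - 1) * (4 * σ - 2) + ε)) ≤
            volume (Metric.thickening r K) := by
      intro n hn ε hε
      obtain ⟨d, rfl⟩ : ∃ d, n = d + 1 := ⟨n - 1, by omega⟩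
      obtain ⟨c, hc, hv⟩ := Pool.Agent.H605.Web.kakeya_all hDK (by linarith : 3 - 4 * σ ≤ 1)
        (d := d) (by omega) hε
      refine ⟨c, hc, fun K hK r hr hr1 => ?_⟩
      have e : (((d + 1 : ℕ) : ℝ) - 1) * (4 * σ - 2) + ε = (d : ℝ) * (1 - (3 - 4 * σ)) + ε := by
        push_cast; ring
      rw [e]
      exact hv K hK r hr hr1
    refine ⟨?_, fun n hn => ⟨vol n hn, fun K hKc hK => ?_⟩⟩
    · intro ε hε
      obtain ⟨N₀, hN₀⟩ := hDK ε hε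
      refine ⟨N₀, fun N hN S hS E hE => ?_⟩
      have h1 := hN₀ N hN S hS E hE
      have e : (4 : ℝ) * σ - 2 + ε = 1 - (3 - 4 * σ) + ε := by ring
      rw [e]
      exact h1
    · have h1 := Pool.Agent.H605.Web.dim_of_volume (s := ((n : ℝ) - 1) * (4 * σ - 2)) K hKc
        (fun ε hε => by
          obtain ⟨c, hc, hv⟩ := vol n hn ε hε
          exact ⟨c, hc, hv K hK⟩)
      refine le_trans (le_of_eq ?_) h1
      ring
  · intro h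
    have h1 := hfull (1 / 2) le_rfl h
    have h2 : Pool.Agent.H605.Web.DiscreteKakeya := by
      intro ε hε
      obtain ⟨N₀, hN₀⟩ := h1 ε hε
      refine ⟨N₀, fun N hN E hE => ?_⟩
      have h3 := hN₀ N hN E hE
      have e : (3 : ℝ) - 4 * (1 / 2) - ε = 1 - ε := by ring
      rw [e] at h3
      exact h3
    have h3 := Pool.Agent.H605.Web.sets_of_full h2
    exact ⟨fun α hα hα1 => Pool.Agent.H605.Web.lowerExponent_of_sets h3 (by linarith) hα1,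
      Pool.Agent.H605.Web.erdos_of_eps fun _ hη => Pool.Agent.H605.Web.erdos_of_sets h3 hη⟩
  · intro h η hη
    obtain ⟨δ, hδ, hδη, hq⟩ := h η hη
    refine ⟨δ, hδ, hδη, part2 (1 / 2 + η) δ (2 - 2 * (1 / 2 + η) + δ / 2) (by linarith) hδ
      (by linarith) (hq (1 / 2 + η) (δ / 2) (by linarith) (by linarith))⟩

end Pool.Agent.Results.MP_ecd12e_nt.KakeyaFromLargeValues
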